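import Pool.Agent.U856.BM.Stm2

set_option autoImplicit false
set_option linter.unusedSectionVars false

/-!
Project BM (helper856), package IT (helper591): the abstract integration lemma. A function of absolute value one
on finitely many open intervals which is multiplied by `exp (2 π I ρ k)` under the pieces of an interval
exchange gives integers `n k` with `∑ (hi k - lo k) (ρ k + n k) = 0`.
-/

open Set Filter Topology MeasureTheory

namespace Pool.Agent.U591.BM.IT

open Pool.Agent.U856.BM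

/-- truncation -/
noncomputable def cl (M x : ℝ) : ℝ := max (-M) (min x M)

lemma cl_cont (M : ℝ) : Continuous (cl M) := by unfold cl; fun_prop

lemma cl_abs {M : ℝ} (hM : 0 ≤ M) (x : ℝ) : |cl M x| ≤ M := by
  unfold cl
  rw [abs_le]
  exact ⟨le_max_left _ _, max_le (by linarith) (min_le_right _ _)⟩

lemma cl_lip (M x y : ℝ) : |cl M x - cl M y| ≤ |x - y| := by
  unfold cl
  exact (abs_max_sub_max_le_max _ _ _ _).trans (by
    rw [sub_self, abs_zero]
    refine max_le (abs_nonneg _) ?_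
    exact (abs_min_sub_min_le_max _ _ _ _).trans (by
      rw [sub_self, abs_zero]
      exact max_le le_rfl (abs_nonneg _)))

lemma cl_eq {M x : ℝ} (h : |x| ≤ M) : cl M x = x := by
  unfold cl
  rw [abs_le] at h
  rw [min_eq_left h.2, max_eq_right h.1]

lemma lift_exists (A B : ℝ) (f : ℝ → ℂ) (hf : ∀ u, A < u → u < B → ‖f u‖ = 1 ∧ ContinuousAt f u) :
    ∃ g : ℝ → ℝ, ContinuousOn g (Ioo A B) ∧
      ∀ u ∈ Ioo A B, f u = Complex.exp (2 * Real.pi * Complex.I * (g u : ℝ)) := by
  by_cases h : A < B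
  · have h1 : (Ioo A B).Nonempty := nonempty_Ioo.2 h
    have h2 : ContractibleSpace (Ioo A B) := (convex_Ioo A B).contractibleSpace h1
    have h3 : IsSimplyConnected (Ioo A B) := by
      unfold IsSimplyConnected
      infer_instance
    have h4 : ContinuousOn f (Ioo A B) := fun u hu => (hf u hu.1 hu.2).2.continuousWithinAt
    have h5 : (0 : ℂ) ∉ f '' Ioo A B := by
      rintro ⟨u, hu, e⟩
      have := (hf u hu.1 hu.2).1
      rw [e] at this
      simp at this
    obtain ⟨F, hF, hFe⟩ := Complex.exists_continuousOn_eqOn_exp_comp h3 isOpen_Ioo h4 h5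
    refine ⟨fun u => (F u).im / (2 * Real.pi), ?_, ?_⟩
    · exact (Complex.continuous_im.comp_continuousOn hF).div_const _
    · intro u hu
      have e1 : Complex.exp (F u) = f u := hFe hu
      have e2 : (F u).re = 0 := by
        have := (hf u hu.1 hu.2).1
        rw [← e1, Complex.norm_exp] at this
        exact (Real.exp_eq_one_iff _).1 this
      rw [← e1]
      congr 1
      have hpi : (Real.pi : ℂ) ≠ 0 := by exact_mod_cast Real.pi_ne_zero
      have e3 : F u = ((F u).im : ℂ) * Complex.I := by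
        apply Complex.ext <;> simp [e2]
      calc F u = ((F u).im : ℂ) * Complex.I := e3
        _ = 2 * Real.pi * Complex.I * (((F u).im / (2 * Real.pi) : ℝ) : ℂ) := by
          push_cast
          field_simp
  · exact ⟨fun _ => 0, continuousOn_const, fun u hu => absurd (hu.1.trans hu.2) h⟩

/-- an integer valued continuous function on an interval is constant -/
lemma const_int (l r : ℝ) (q : ℝ → ℝ) (hq : ContinuousOn q (Ioo l r))
    (hz : ∀ u ∈ Ioo l r, ∃ m : ℤ, q u = m) : ∃ n : ℤ, ∀ u ∈ Ioo l r, q u = n := by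
  by_cases h : (Ioo l r).Nonempty
  · obtain ⟨u0, h0⟩ := h
    obtain ⟨n, hn⟩ := hz u0 h0
    refine ⟨n, fun u hu => ?_⟩
    obtain ⟨m, hm⟩ := hz u hu
    have key : ∀ x y : ℝ, x ∈ Ioo l r → y ∈ Ioo l r → ∀ a b : ℤ, q x = a → q y = b → ¬ a < b := by
      intro x y hx hy a b ha hb hab
      have h1 := isPreconnected_Ioo.intermediate_value hx hy hq
      have h2 : (a : ℝ) + 1 / 2 ∈ Icc (q x) (q y) := by
        rw [ha, hb]
        have : (a : ℝ) + 1 ≤ b := by exact_mod_cast hab
        exact ⟨by linarith, by linarith⟩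
      obtain ⟨w, hw, e⟩ := h1 h2
      obtain ⟨d, hd⟩ := hz w hw
      rw [hd] at e
      have h3 : (2 * d : ℤ) = 2 * a + 1 := by
        have : (2 : ℝ) * d = 2 * a + 1 := by linarith
        exact_mod_cast this
      omega
    have h1 := key u0 u h0 hu n m hn hm
    have h2 := key u u0 hu h0 m n hm hn
    have h3 : m = n := by omega
    rw [hm, h3]
  · exact ⟨0, fun u hu => absurd ⟨u, hu⟩ h⟩

section fill

variable {ι κ : Type} [Fintype ι] [Fintype κ] [DecidableEq ι] (A B : ι → ℝ) (p : κ → ι) (l r : κ → ℝ)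

/-- the union of the pieces in the interval `i` -/
def UU (i : ι) : Set ℝ := ⋃ k ∈ Finset.univ.filter (fun k => p k = i), Ioo (l k) (r k)

variable {A B p l r}

lemma UU_sub (h3 : ∀ k, l k < r k → A (p k) ≤ l k ∧ r k ≤ B (p k)) (i : ι) :
    UU p l r i ⊆ Ioo (A i) (B i) := by
  intro u hu
  simp only [UU, mem_iUnion, Finset.mem_filter, Finset.mem_univ, true_and] at hu
  obtain ⟨k, hk, h1, h2⟩ := hu
  obtain ⟨h4, h5⟩ := h3 k (h1.trans h2)
  rw [hk] at h4 h5
  exact ⟨lt_of_le_of_lt h4 h1, lt_of_lt_of_le h2 h5⟩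

lemma UU_disj (h4 : ∀ k k' u, k ≠ k' → p k = p k' → l k < u → u < r k → l k' < u → ¬ u < r k')
    (i : ι) : Set.Pairwise (↑(Finset.univ.filter (fun k => p k = i)) : Set κ)
      (Function.onFun Disjoint fun k => Ioo (l k) (r k)) := by
  intro k hk k' hk' hne
  simp only [Finset.coe_filter, Finset.mem_univ, true_and, mem_ofPred_eq] at hk hk'
  rw [Function.onFun, Set.disjoint_left]
  intro u hu hu'
  exact h4 k k' u hne (hk.trans hk'.symm) hu.1 hu.2 hu'.1 hu'.2

lemma UU_meas (i : ι) : MeasurableSet (UU p l r i) :=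
  Finset.measurableSet_biUnion _ fun _ _ => measurableSet_Ioo

lemma UU_vol (h4 : ∀ k k' u, k ≠ k' → p k = p k' → l k < u → u < r k → l k' < u → ¬ u < r k')
    (i : ι) : volume (UU p l r i) =
      ∑ k ∈ Finset.univ.filter (fun k => p k = i), ENNReal.ofReal (r k - l k) := by
  unfold UU
  rw [measure_biUnion_finset (UU_disj h4 i) fun _ _ => measurableSet_Ioo]
  exact Finset.sum_congr rfl fun k _ => Real.volume_Ioo

lemma vol_sum (h3 : ∀ k, l k < r k → A (p k) ≤ l k ∧ r k ≤ B (p k))
    (h4 : ∀ k k' u, k ≠ k' → p k = p k' → l k < u → u < r k → l k' < u → ¬ u < r k') :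
    ∑ i, volume (Ioo (A i) (B i)) = ∑ i, volume (Ioo (A i) (B i) \ UU p l r i) +
      ∑ k, ENNReal.ofReal (r k - l k) := by
  rw [← Finset.sum_fiberwise Finset.univ p (fun k => ENNReal.ofReal (r k - l k)),
    ← Finset.sum_add_distrib]
  refine Finset.sum_congr rfl fun i _ => ?_
  rw [← UU_vol h4 i, ← measure_sdiff_add_inter (Ioo (A i) (B i)) (UU_meas (p := p) (l := l) (r := r) i),
    inter_eq_self_of_subset_right (UU_sub h3 i)]

lemma fill (h3 : ∀ k, l k < r k → A (p k) ≤ l k ∧ r k ≤ B (p k))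
    (h4 : ∀ k k' u, k ≠ k' → p k = p k' → l k < u → u < r k → l k' < u → ¬ u < r k')
    (h0 : ∀ i, volume (Ioo (A i) (B i) \ UU p l r i) = 0) (G : ι → ℝ → ℝ)
    (hG : ∀ i, IntegrableOn (G i) (Ioo (A i) (B i))) :
    ∑ k, ∫ u in Ioo (l k) (r k), G (p k) u = ∑ i, ∫ u in Ioo (A i) (B i), G i u := by
  rw [← Finset.sum_fiberwise Finset.univ p (fun k => ∫ u in Ioo (l k) (r k), G (p k) u)]
  refine Finset.sum_congr rfl fun i _ => ?_
  have e1 : ∫ u in Ioo (A i) (B i), G i u = ∫ u in UU p l r i, G i u := by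
    refine setIntegral_congr_set ?_
    refine (ae_eq_set).2 ⟨h0 i, ?_⟩
    rw [sdiff_eq_empty.2 (UU_sub h3 i), measure_empty]
  rw [e1]
  unfold UU
  rw [integral_biUnion_finset _ (fun _ _ => measurableSet_Ioo) (UU_disj h4 i)]
  · refine Finset.sum_congr rfl fun k hk => ?_
    simp only [Finset.mem_filter, Finset.mem_univ, true_and] at hk
    rw [hk]
  · intro k hk
    refine (hG i).mono_set ?_
    refine subset_trans ?_ (UU_sub h3 i)
    intro u hu
    simp only [UU, mem_iUnion]
    exact ⟨k, hk, hu⟩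

end fill

lemma shift (l r c : ℝ) (hlr : l ≤ r) (G : ℝ → ℝ) :
    ∫ u in Ioo l r, G (u + c) = ∫ u in Ioo (l + c) (r + c), G u := by
  rw [← integral_Ioc_eq_integral_Ioo, ← integral_Ioc_eq_integral_Ioo,
    ← intervalIntegral.integral_of_le hlr, ← intervalIntegral.integral_of_le (by linarith),
    intervalIntegral.integral_comp_add_right]

theorem t (ι κ : Type) [Fintype ι] [Fintype κ] (A B : ι → ℝ) (src tgt : κ → ι) (lo hi c ρ : κ → ℝ)
    (f : ι → ℝ → ℂ) (_hAB : ∀ i, A i ≤ B i) (h2 : ∀ k, lo k ≤ hi k)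
    (h3 : ∀ k, lo k < hi k → A (src k) ≤ lo k ∧ hi k ≤ B (src k) ∧ A (tgt k) ≤ lo k + c k ∧
      hi k + c k ≤ B (tgt k))
    (h4 : ∀ k k' u, k ≠ k' → src k = src k' → lo k < u → u < hi k → lo k' < u → ¬ u < hi k')
    (h5 : ∀ k k' u, k ≠ k' → tgt k = tgt k' → lo k + c k < u → u < hi k + c k → lo k' + c k' < u →
      ¬ u < hi k' + c k')
    (h6 : {z : ι × ℝ | A z.1 < z.2 ∧ z.2 < B z.1 ∧
      ¬ ∃ k, src k = z.1 ∧ lo k < z.2 ∧ z.2 < hi k}.Finite)
    (h7 : ∀ i u, A i < u → u < B i → ‖f i u‖ = 1 ∧ ContinuousAt (f i) u)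
    (h8 : ∀ k u, lo k < u → u < hi k →
      f (tgt k) (u + c k) = Complex.exp (2 * Real.pi * Complex.I * (ρ k : ℝ)) * f (src k) u) :
    ∃ n : κ → ℤ, ∑ k, (hi k - lo k) * (ρ k + n k) = 0 := by
  classical
  choose g hg hge using fun i => lift_exists (A i) (B i) (f i) (h7 i)
  -- the integers
  have hn : ∀ k, ∃ n : ℤ, ∀ u ∈ Ioo (lo k) (hi k), g (tgt k) (u + c k) - g (src k) u - ρ k = n := by
    intro k
    by_cases hk : lo k < hi k
    · obtain ⟨a1, a2, a3, a4⟩ := h3 k hk
      have m1 : ∀ u ∈ Ioo (lo k) (hi k), u ∈ Ioo (A (src k)) (B (src k)) := fun u hu =>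
        ⟨lt_of_le_of_lt a1 hu.1, lt_of_lt_of_le hu.2 a2⟩
      have m2 : ∀ u ∈ Ioo (lo k) (hi k), u + c k ∈ Ioo (A (tgt k)) (B (tgt k)) := fun u hu =>
        ⟨lt_of_le_of_lt a3 (by linarith [hu.1]), lt_of_lt_of_le (by linarith [hu.2]) a4⟩
      refine const_int (lo k) (hi k) (fun u => g (tgt k) (u + c k) - g (src k) u - ρ k) ?_ ?_
      · refine (ContinuousOn.sub ?_ ((hg (src k)).mono m1)).sub continuousOn_const
        exact (hg (tgt k)).comp (by fun_prop) m2
      · intro u hu
        have e := h8 k u hu.1 hu.2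
        rw [hge (tgt k) _ (m2 u hu), hge (src k) u (m1 u hu), ← Complex.exp_add,
          Complex.exp_eq_exp_iff_exists_int] at e
        obtain ⟨m, hm⟩ := e
        refine ⟨m, ?_⟩
        have hpi : (2 * Real.pi * Complex.I : ℂ) ≠ 0 := Complex.two_pi_I_ne_zero
        have h9 : (2 * Real.pi * Complex.I : ℂ) * ((g (tgt k) (u + c k) : ℝ) : ℂ) =
            (2 * Real.pi * Complex.I : ℂ) * (((ρ k : ℝ) : ℂ) + (g (src k) u : ℝ) + m) := by
          rw [hm]; ring
        have h10 := mul_left_cancel₀ hpi h9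
        have h11 : g (tgt k) (u + c k) = ρ k + g (src k) u + m := by exact_mod_cast h10
        rw [h11]; ring
    · exact ⟨0, fun u hu => absurd (hu.1.trans hu.2) hk⟩
  choose n hn using hn
  refine ⟨n, ?_⟩
  -- null sets
  have z1 : ∀ i, volume (Ioo (A i) (B i) \ UU src lo hi i) = 0 := by
    intro i
    refine Set.Finite.measure_zero ?_ _
    refine (h6.image Prod.snd).subset ?_
    rintro u ⟨hu, hu'⟩
    refine ⟨(i, u), ⟨hu.1, hu.2, ?_⟩, rfl⟩
    rintro ⟨k, hk, hk1, hk2⟩
    apply hu'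
    simp only [UU, mem_iUnion, Finset.mem_filter, Finset.mem_univ, true_and]
    exact ⟨k, hk, hk1, hk2⟩
  have h3s : ∀ k, lo k < hi k → A (src k) ≤ lo k ∧ hi k ≤ B (src k) := fun k hk =>
    ⟨(h3 k hk).1, (h3 k hk).2.1⟩
  have h3t : ∀ k, lo k + c k < hi k + c k → A (tgt k) ≤ lo k + c k ∧ hi k + c k ≤ B (tgt k) :=
    fun k hk => ⟨(h3 k (by linarith)).2.2.1, (h3 k (by linarith)).2.2.2⟩
  have v1 := vol_sum (A := A) (B := B) h3s h4
  have v2 := vol_sum (A := A) (B := B) (p := tgt) (l := fun k => lo k + c k)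
    (r := fun k => hi k + c k) h3t h5
  have z2 : ∀ i, volume (Ioo (A i) (B i) \ UU tgt (fun k => lo k + c k) (fun k => hi k + c k) i) = 0 := by
    have e1 : ∑ i, volume (Ioo (A i) (B i) \ UU src lo hi i) = 0 :=
      Finset.sum_eq_zero fun i _ => z1 i
    have e2 : ∑ k, ENNReal.ofReal (hi k + c k - (lo k + c k)) = ∑ k, ENNReal.ofReal (hi k - lo k) :=
      Finset.sum_congr rfl fun k _ => by congr 1; ring
    rw [e1, zero_add] at v1
    rw [e2, ← v1] at v2
    have fin : ∑ i, volume (Ioo (A i) (B i)) ≠ ⊤ := by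
      refine (ENNReal.sum_lt_top.2 fun i _ => ?_).ne
      rw [Real.volume_Ioo]
      exact ENNReal.ofReal_lt_top
    have e3 : ∑ i, volume (Ioo (A i) (B i) \
        UU tgt (fun k => lo k + c k) (fun k => hi k + c k) i) = 0 := by
      have h9 : (0 : ENNReal) + ∑ i, volume (Ioo (A i) (B i)) =
        ∑ i, volume (Ioo (A i) (B i) \ UU tgt (fun k => lo k + c k) (fun k => hi k + c k) i) +
          ∑ i, volume (Ioo (A i) (B i)) := by
        rw [zero_add]
        exact v2
      exact ((ENNReal.add_left_inj fin).1 h9).symm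
    intro i
    exact (Finset.sum_eq_zero_iff.1 e3) i (Finset.mem_univ i)
  -- the truncated integrals
  have hGi : ∀ (M : ℕ) i, IntegrableOn (fun u => cl M (g i u)) (Ioo (A i) (B i)) := by
    intro M i
    refine Integrable.of_bound (C := (M : ℝ)) ?_ ?_
    · exact ((cl_cont M).comp_continuousOn (hg i)).aestronglyMeasurable measurableSet_Ioo
    · exact ae_of_all _ fun u => by
        rw [Real.norm_eq_abs]
        exact cl_abs (Nat.cast_nonneg M) _
  have hint : ∀ (M : ℕ) k, IntegrableOn (fun u => cl M (g (src k) u)) (Ioo (lo k) (hi k)) ∧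
      IntegrableOn (fun u => cl M (g (tgt k) (u + c k))) (Ioo (lo k) (hi k)) := by
    intro M k
    by_cases hk : lo k < hi k
    · obtain ⟨a1, a2, a3, a4⟩ := h3 k hk
      have m1 : ∀ u ∈ Ioo (lo k) (hi k), u ∈ Ioo (A (src k)) (B (src k)) := fun u hu =>
        ⟨lt_of_le_of_lt a1 hu.1, lt_of_lt_of_le hu.2 a2⟩
      have m2 : ∀ u ∈ Ioo (lo k) (hi k), u + c k ∈ Ioo (A (tgt k)) (B (tgt k)) := fun u hu =>
        ⟨lt_of_le_of_lt a3 (by linarith [hu.1]), lt_of_lt_of_le (by linarith [hu.2]) a4⟩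
      refine ⟨(hGi M (src k)).mono_set m1, ?_⟩
      refine Integrable.of_bound (C := (M : ℝ)) ?_ ?_
      · have h9 : ContinuousOn (fun u => g (tgt k) (u + c k)) (Ioo (lo k) (hi k)) :=
          (hg (tgt k)).comp (by fun_prop) m2
        exact ((cl_cont M).comp_continuousOn h9).aestronglyMeasurable measurableSet_Ioo
      · exact ae_of_all _ fun u => by
          rw [Real.norm_eq_abs]
          exact cl_abs (Nat.cast_nonneg M) _
    · rw [Ioo_eq_empty hk]
      exact ⟨integrableOn_empty, integrableOn_empty⟩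
  have hzero : ∀ M : ℕ, ∑ k, ∫ u in Ioo (lo k) (hi k),
      (cl M (g (tgt k) (u + c k)) - cl M (g (src k) u)) = 0 := by
    intro M
    have e1 := fill h3s h4 z1 (fun i u => cl M (g i u)) (hGi M)
    have e2 := fill (l := fun k => lo k + c k) (r := fun k => hi k + c k) h3t h5 z2
      (fun i u => cl M (g i u)) (hGi M)
    have e3 : ∀ k, ∫ u in Ioo (lo k) (hi k), (cl M (g (tgt k) (u + c k)) - cl M (g (src k) u)) =
        (∫ u in Ioo (lo k + c k) (hi k + c k), cl M (g (tgt k) u)) -
        ∫ u in Ioo (lo k) (hi k), cl M (g (src k) u) := by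
      intro k
      rw [integral_sub (hint M k).2 (hint M k).1, shift (lo k) (hi k) (c k) (h2 k)
        (fun u => cl M (g (tgt k) u))]
    rw [Finset.sum_congr rfl fun k _ => e3 k, Finset.sum_sub_distrib]
    rw [e1, e2, sub_self]
  have hlim : Tendsto (fun M : ℕ => ∑ k, ∫ u in Ioo (lo k) (hi k),
      (cl M (g (tgt k) (u + c k)) - cl M (g (src k) u))) atTop
      (𝓝 (∑ k, ∫ _u in Ioo (lo k) (hi k), (ρ k + n k))) := by
    refine tendsto_finsetSum _ fun k _ => ?_
    refine tendsto_integral_of_dominated_convergence (fun _ => |ρ k + n k|) ?_ ?_ ?_ ?_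
    · intro M
      exact ((hint M k).2.sub (hint M k).1).aestronglyMeasurable
    · exact integrableOn_const (by rw [Real.volume_Ioo]; exact ENNReal.ofReal_ne_top)
    · intro M
      refine (ae_restrict_mem measurableSet_Ioo).mono fun u hu => ?_
      rw [Real.norm_eq_abs]
      refine (cl_lip _ _ _).trans ?_
      have := hn k u hu
      rw [show g (tgt k) (u + c k) - g (src k) u = ρ k + n k by linarith]
    · refine (ae_restrict_mem measurableSet_Ioo).mono fun u hu => ?_
      refine tendsto_const_nhds.congr' ?_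
      obtain ⟨N, hN⟩ := exists_nat_ge (max |g (tgt k) (u + c k)| |g (src k) u|)
      filter_upwards [eventually_ge_atTop N] with M hM
      have hM' : (N : ℝ) ≤ M := by exact_mod_cast hM
      rw [cl_eq ((le_max_left _ _).trans (hN.trans hM')),
        cl_eq ((le_max_right _ _).trans (hN.trans hM'))]
      have := hn k u hu
      linarith
  simp only [hzero] at hlim
  have h9 := tendsto_nhds_unique tendsto_const_nhds hlim
  rw [h9]
  refine Finset.sum_congr rfl fun k _ => ?_
  rw [setIntegral_const, smul_eq_mul, measureReal_def, Real.volume_Ioo,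
    ENNReal.toReal_ofReal (by linarith [h2 k])]

theorem t_IT : S_IT := by
  intro ι κ _ _ A B src tgt lo hi c ρ f h1 h2 h3 h4 h5 h6 h7 h8
  exact t ι κ A B src tgt lo hi c ρ f h1 h2 h3 h4 h5 h6 h7 h8

end Pool.Agent.U591.BM.IT
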